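import Pool.Agent.PXE.Stmts
import Pool.Agent.Helper82_PX.All
import Pool.Agent.Helper22_PX.MAX

set_option autoImplicit false

/-!
# Squad PXE, row CPN: relatively prime forms have no common zero with one special coordinate
-/

namespace Pool.Agent.PXE.H13

open MvPolynomial
open Pool.Agent.PX (IsLo IsG Sym nb IsPt)
open Pool.Agent.PX.H22 (card_nb)
open Pool.Agent.PW (Ph Free Robust Piv)

theorem ph_eq_map {E D : Type} [Field E] [CommRing D] [Algebra E D] (ζ : ℕ → D) (J : Finset ℕ)
    (g : MvPolynomial ℕ E) (h : g.vars ⊆ J) : Ph ζ J g = map (algebraMap E D) g := by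
  show ((Ph ζ J : MvPolynomial ℕ E →ₐ[E] MvPolynomial ℕ D) :
    MvPolynomial ℕ E →+* MvPolynomial ℕ D) g = map (algebraMap E D) g
  apply hom_congr_vars
  · ext r
    show coeff _ (Ph ζ J (C r)) = coeff _ (map (algebraMap E D) (C r))
    unfold Ph
    rw [aeval_C, map_C]
    rfl
  · intro i hi _
    show Ph ζ J (X i) = map (algebraMap E D) (X i)
    unfold Ph
    rw [aeval_X, map_X, if_pos (h hi)]
  · rfl

/-- case B: `g` has many variables -/
theorem caseB {c q N1 N2 m : ℕ} (hN1 : N1 = q * ((2 * c + 1) * (2 * c + 1)) +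
      2 * ((2 * c + 1) * (2 * c + 1)))
    (hN2 : N2 = (q + N1) * ((2 * c + 1) * (2 * c + 1)) + (2 * c + 1) * (2 * c + 1))
    (hm : m = (q + N1) * (2 * c + 1) + 2 * (2 * c + 1))
    {E D : Type} [Field E] [CharZero E] [CommRing D]
    [IsDomain D] [Algebra E D] (ζ : ℕ → D) (hfree : Free E m ζ)
    (g h : MvPolynomial ℕ E) (J : Finset ℕ) (hg : IsLo c g) (hh : IsLo c h) (hg0 : g ≠ 0)
    (hh0 : h ≠ 0) (hrp : IsRelPrime g h) (hJ : J.card ≤ q) (hgN : N2 ≤ g.vars.card)
    (z : ℕ) (Om : Type) [Field Om] [Algebra E Om] (j e : MvPolynomial ℕ D →ₐ[E] Om) (hzJ : z ∈ J)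
    (hj : Function.Injective j) (hC : ∀ d, e (C d) = j (C d))
    (hX : ∀ i, i ≠ z → e (X i) = j (X i))
    (h1 : e (Ph ζ J g) = 0) (h2 : e (Ph ζ J h) = 0) : False := by
  classical
  obtain ⟨Γ, hΓ, hΓg⟩ := (Pool.Agent.PX.aGax E).1 c 2 [g, h] (by simp) (by
    intro f hf
    simp only [List.mem_cons, List.not_mem_nil, or_false] at hf
    rcases hf with rfl | rfl
    · exact hg
    · exact hh)
  have hGg : IsG Γ g := hΓg g (by simp)
  have hGh : IsG Γ h := hΓg h (by simp)
  generalize hs : 2 * c + 1 = s at *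
  have hs1 : 1 ≤ s := by omega
  have hss : 1 ≤ s * s := Nat.mul_pos hs1 hs1
  have hpt : IsPt ζ (![g] : Fin 1 → MvPolynomial ℕ E) J ![z] j e := by
    refine ⟨hj, hC, ?_, ?_⟩
    · intro i hi
      apply hX
      rintro rfl
      exact hi ⟨0, rfl⟩
    · intro a
      fin_cases a
      exact h1
  have hzinj : Function.Injective (![z] : Fin 1 → ℕ) := Function.injective_of_subsingleton _
  have hzJ' : ∀ b, (![z] : Fin 1 → ℕ) b ∈ J := by
    intro b
    fin_cases b
    exact hzJ
  -- all elements of the span vanish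
  have hθ : ∀ f ∈ Submodule.span E (Set.range (![g, h] : Fin 2 → MvPolynomial ℕ E)),
      e (Ph ζ J f) = 0 := by
    intro f hf
    have h3 : Submodule.span E (Set.range (![g, h] : Fin 2 → MvPolynomial ℕ E)) ≤
        LinearMap.ker (e.comp (Ph ζ J)).toLinearMap := by
      rw [Submodule.span_le]
      rintro _ ⟨a, rfl⟩
      fin_cases a
      · exact h1
      · exact h2
    exact h3 hf
  by_cases hli : LinearIndependent E (![g, h] : Fin 2 → MvPolynomial ℕ E)
  · have hG2 : ∀ a, IsG Γ ((![g, h] : Fin 2 → MvPolynomial ℕ E) a) := by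
      intro a
      fin_cases a
      · exact hGg
      · exact hGh
    by_cases hrob : Robust N1
        (Submodule.span E (Set.range (![g, h] : Fin 2 → MvPolynomial ℕ E)))
    · -- B1
      have hnb1 : (nb Γ J).card ≤ q * s :=
        (card_nb hΓ _).trans (Nat.mul_le_mul_right _ hJ)
      have hnb2 : (nb Γ (nb Γ J)).card ≤ q * (s * s) := by
        rw [← mul_assoc]
        exact (card_nb hΓ _).trans (Nat.mul_le_mul_right _ hnb1)
      obtain ⟨z', hz', hz'T⟩ := Pool.Agent.PX.aPix E 2 N1 s Γ _ hΓ hli hG2 hrob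
        (nb Γ (nb Γ J)) (by omega)
      have h3 := (Pool.Agent.PX.H22.maxx E D Om ζ m 1 2 s Γ ![g] ![g, h] J J ![z] z' j e
        hΓ hfree hpt hzinj hzJ' (Finset.Subset.refl _) hG2
        (fun a => hθ _ (Submodule.subset_span ⟨a, rfl⟩)) hz' hz'T (by
          rw [hm]
          have h4 : (q + N1) * s = q * s + N1 * s := by ring
          omega)).1
      omega
    · -- B2
      unfold Robust at hrob
      push Not at hrob
      obtain ⟨f, hf, hf0, hfc⟩ := hrob
      have hG1 : ∀ a, IsG Γ ((![g] : Fin 1 → MvPolynomial ℕ E) a) := by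
        intro a
        fin_cases a
        exact hGg
      have hli1 : LinearIndependent E (![g] : Fin 1 → MvPolynomial ℕ E) := by
        rw [linearIndependent_unique_iff]
        exact hg0
      have hrob1 : Robust N2
          (Submodule.span E (Set.range (![g] : Fin 1 → MvPolynomial ℕ E))) := by
        intro f hf hf0
        have hr : Set.range (![g] : Fin 1 → MvPolynomial ℕ E) = {g} := by
          ext x
          simp
        rw [hr, Submodule.mem_span_singleton] at hf
        obtain ⟨κ, rfl⟩ := hf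
        have hκ : κ ≠ 0 := by
          rintro rfl
          exact hf0 (zero_smul _ _)
        rw [smul_eq_C_mul, vars_C_mul κ hκ]
        exact hgN
      have hT : (J ∪ f.vars).card ≤ q + N1 :=
        (Finset.card_union_le _ _).trans (add_le_add hJ hfc.le)
      have hnb1 : (nb Γ (J ∪ f.vars)).card ≤ (q + N1) * s :=
        (card_nb hΓ _).trans (Nat.mul_le_mul_right _ hT)
      have hnb2 : (nb Γ (nb Γ (J ∪ f.vars))).card ≤ (q + N1) * (s * s) := by
        rw [← mul_assoc]
        exact (card_nb hΓ _).trans (Nat.mul_le_mul_right _ hnb1)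
      obtain ⟨z', hz', hz'T⟩ := Pool.Agent.PX.aPix E 1 N2 s Γ _ hΓ hli1 hG1 hrob1
        (nb Γ (nb Γ (J ∪ f.vars))) (by omega)
      exact (Pool.Agent.PX.H22.maxx E D Om ζ m 1 1 s Γ ![g] ![g] J (J ∪ f.vars) ![z] z' j e
        hΓ hfree hpt hzinj hzJ' Finset.subset_union_left hG1 hpt.2.2.2 hz' hz'T (by
          rw [hm]
          omega)).2 rfl f hf0 Finset.subset_union_right (hθ f hf)
  · -- linearly dependent
    rw [LinearIndependent.pair_iff] at hli
    push Not at hli
    obtain ⟨a, b, hab, hne⟩ := hli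
    have hb : b ≠ 0 := by
      rintro rfl
      rw [zero_smul, add_zero] at hab
      have ha : a ≠ 0 := fun h => hne h rfl
      exact (smul_ne_zero ha hg0) hab
    have hdvd : g ∣ h := by
      refine ⟨C (-(b⁻¹ * a)), ?_⟩
      have h3 : h = b⁻¹ • (b • h) := by rw [smul_smul, inv_mul_cancel₀ hb, one_smul]
      have h4 : b • h = - (a • g) := eq_neg_of_add_eq_zero_right hab
      rw [h3, h4, mul_comm, ← smul_eq_C_mul, smul_neg, smul_smul, neg_smul]
    have hu : IsUnit g := hrp (dvd_refl g) hdvd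
    rw [MvPolynomial.isUnit_iff_eq_C_of_isReduced] at hu
    obtain ⟨r, _, hr⟩ := hu
    rw [hr, vars_C, Finset.card_empty] at hgN
    omega

theorem cpn (hElx : ElxStmt) : CpnStmt := by
  classical
  intro c q
  obtain ⟨N1, hN1⟩ : ∃ N1, N1 = q * ((2 * c + 1) * (2 * c + 1)) +
      2 * ((2 * c + 1) * (2 * c + 1)) := ⟨_, rfl⟩
  obtain ⟨N2, hN2⟩ : ∃ N2, N2 = (q + N1) * ((2 * c + 1) * (2 * c + 1)) +
      (2 * c + 1) * (2 * c + 1) := ⟨_, rfl⟩
  obtain ⟨m, hm⟩ : ∃ m, m = (q + N1) * (2 * c + 1) + 2 * (2 * c + 1) := ⟨_, rfl⟩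
  refine ⟨q + 2 * N2, m, ?_⟩
  intro E D _ _ _ _ _ ζ hfree g h J1 hg hh hg0 hh0 hrp hJ1
  by_cases hgN : N2 ≤ g.vars.card
  · refine ⟨J1, Finset.Subset.refl _, by omega, ?_⟩
    intro z Om _ _ j e hz hj hC hX h1 h2
    exact caseB hN1 hN2 hm ζ hfree g h J1 hg hh hg0 hh0 hrp hJ1 hgN z Om j e hz hj hC hX h1 h2
  by_cases hhN : N2 ≤ h.vars.card
  · refine ⟨J1, Finset.Subset.refl _, by omega, ?_⟩
    intro z Om _ _ j e hz hj hC hX h1 h2
    exact caseB hN1 hN2 hm ζ hfree h g J1 hh hg hh0 hg0 hrp.symm hJ1 hhN z Om j e hz hj hC hX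
      h2 h1
  refine ⟨J1 ∪ (g.vars ∪ h.vars), Finset.subset_union_left, ?_, ?_⟩
  · have e1 := Finset.card_union_le J1 (g.vars ∪ h.vars)
    have e2 := Finset.card_union_le g.vars h.vars
    omega
  intro z Om _ _ j e hz hj hC hX h1 h2
  rw [ph_eq_map ζ _ g (Finset.subset_union_left.trans Finset.subset_union_right)] at h1
  rw [ph_eq_map ζ _ h (Finset.subset_union_right.trans Finset.subset_union_right)] at h2
  have hinj : Function.Injective (mapAlgHom (Algebra.ofId E D) :
      MvPolynomial ℕ E →ₐ[E] MvPolynomial ℕ D) := by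
    intro a b hab
    exact map_injective (algebraMap E D) (algebraMap E D).injective hab
  exact hElx E Om g h z (j.comp (mapAlgHom (Algebra.ofId E D)))
    (e.comp (mapAlgHom (Algebra.ofId E D))) hg0 hrp (hj.comp hinj) (by
      intro i hi
      show e (map (algebraMap E D) (X i)) = j (map (algebraMap E D) (X i))
      rw [map_X]
      exact hX i hi) h1 h2

end Pool.Agent.PXE.H13
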